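import Mathlib

namespace Pool.Agent.Results.MP_06047d_an.Periods

/-- `x` solves `x (n+k) = max {x (n+k-1), …, x (n+1), 0} - x n` (indices start at `0`). -/
def IsSol (k : ℕ) (x : ℕ → ℝ) : Prop :=
  ∀ n, x (n + k) = (Finset.Ico 1 k).fold max 0 (fun i => x (n + i)) - x n

/-- The set of (least) periods of periodic real solutions. -/
def Per (k : ℕ) : Set ℕ :=
  {N | ∃ x : ℕ → ℝ, IsSol k x ∧ IsLeast {M : ℕ | 1 ≤ M ∧ ∀ n, x (n + M) = x n} N}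

/-- The conjectured set of admissible periods. -/
def Allowed (k : ℕ) : Set ℕ :=
  {N | N = 1 ∨ (N : ℤ) = (3 - (-1) ^ k) / 2 ∨ N = 2 * k ∨ N = 3 * k - 1} ∪
    {N | ∃ a b : ℕ, 1 ≤ a ∧ 1 ≤ b ∧ Nat.gcd a b = 1 ∧ N = (3 * k - 2) * a + (3 * k - 1) * b}

def seqOf (L : List ℤ) (n : ℕ) : ℤ := L.getD (n % L.length) 0

lemma fold_cast (s : Finset ℕ) (g : ℕ → ℤ) :
    s.fold max (0 : ℝ) (fun i => ((g i : ℤ) : ℝ)) = ((s.fold max 0 g : ℤ) : ℝ) := by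
  classical
  induction s using Finset.induction_on with
  | empty => simp
  | insert a s ha ih => rw [Finset.fold_insert ha, Finset.fold_insert ha, ih]; push_cast; rfl

lemma seqOf_mod (L : List ℤ) (n i : ℕ) : seqOf L (n + i) = seqOf L (n % L.length + i) := by
  unfold seqOf; rw [Nat.mod_add_mod]

lemma mem_per (k : ℕ) (L : List ℤ) (hpos : 0 < L.length)
    (h1 : ∀ r < L.length, seqOf L (r + k) =
      (Finset.Ico 1 k).fold max 0 (fun i => seqOf L (r + i)) - seqOf L r)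
    (h2 : ∀ M < L.length, 1 ≤ M → ∃ r < L.length, seqOf L (r + M) ≠ seqOf L r) :
    L.length ∈ Per k := by
  refine ⟨fun n => (seqOf L n : ℝ), ?_, ⟨hpos, ?_⟩, ?_⟩
  · intro n
    have h := h1 (n % L.length) (Nat.mod_lt _ hpos)
    have e0 : seqOf L n = seqOf L (n % L.length) := by
      simpa using seqOf_mod L n 0
    have e1 : (fun i => seqOf L (n + i)) = fun i => seqOf L (n % L.length + i) :=
      funext fun i => seqOf_mod L n i
    show ((seqOf L (n + k) : ℤ) : ℝ) =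
      (Finset.Ico 1 k).fold max 0 (fun i => ((seqOf L (n + i) : ℤ) : ℝ)) - (seqOf L n : ℝ)
    rw [fold_cast _ (fun i => seqOf L (n + i)), e1, seqOf_mod L n k, h, e0]
    push_cast; rfl
  · intro n
    show ((seqOf L (n + L.length) : ℤ) : ℝ) = (seqOf L n : ℝ)
    unfold seqOf; rw [Nat.add_mod_right]
  · rintro M ⟨hM1, hM⟩
    by_contra hlt
    obtain ⟨r, -, hr⟩ := h2 M (by omega) hM1
    have h3 : ((seqOf L (r + M) : ℤ) : ℝ) = (seqOf L r : ℝ) := hM r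
    exact hr (by exact_mod_cast h3)

def L5 : List ℤ := [0, 1, 0, 0, -1, 1, 0, 1, 1, 2, 1, 2, 1, 1, 0, 1, -1, 0, 0, 1, 0, 2, 2, 2, 1, 2,
  0, 0, 0, 1, -1, 1, 1, 1, 0, 2, 1, 1, 1, 2, 0, 1, 1, 1, -1, 1, 0, 0, 0, 2, 1, 2, 2, 2]

def L6 : List ℤ := [0, 0, 1, 1]

def L7 : List ℤ := [1, 0, 0, 1, 1, 0, -1, 0, 1, 1, 0, 0, 1, 2, 2, 1, 1, 2, 2]

lemma p5 : 54 ∈ Per 5 := mem_per 5 L5 (by decide) (by decide +kernel) (by decide +kernel)
lemma p6 : 4 ∈ Per 6 := mem_per 6 L6 (by decide) (by decide) (by decide)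
lemma p7 : 19 ∈ Per 7 := mem_per 7 L7 (by decide) (by decide) (by decide)

lemma n5 : 54 ∉ Allowed 5 := by
  rintro (h | ⟨a, b, ha, hb, hg, h⟩)
  · revert h; simp only [Set.mem_ofPred_eq]; decide
  · have ha2 : a = 2 := by omega
    have hb2 : b = 2 := by omega
    subst ha2 hb2; revert hg; decide

lemma n6 : 4 ∉ Allowed 6 := by
  rintro (h | ⟨a, b, ha, hb, hg, h⟩)
  · revert h; simp only [Set.mem_ofPred_eq]; decide
  · omega

lemma n7 : 19 ∉ Allowed 7 := by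
  rintro (h | ⟨a, b, ha, hb, hg, h⟩)
  · revert h; simp only [Set.mem_ofPred_eq]; decide
  · omega

theorem result :
    (¬ ∀ k : ℕ, 5 ≤ k → Per k ⊆ Allowed k) ∧
    (54 ∈ Per 5 ∧ 54 ∉ Allowed 5) ∧ (4 ∈ Per 6 ∧ 4 ∉ Allowed 6) ∧
    (19 ∈ Per 7 ∧ 19 ∉ Allowed 7) :=
  ⟨fun h => n5 (h 5 le_rfl p5), ⟨p5, n5⟩, ⟨p6, n6⟩, ⟨p7, n7⟩⟩

end Pool.Agent.Results.MP_06047d_an.Periods
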